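import Pool.Agent.VTP.StmtsT
import Pool.Agent.Helper24_ZOL.FMUL
import Pool.Agent.Helper24_ZOL.GFLIP
import Pool.Agent.Helper24_ZOL.MGAU
import Pool.Agent.Helper11_ZOL.MPla

/-!
# Squad VTP, row FIM
-/

set_option autoImplicit false

namespace Pool.Agent.VTP.H15

open Finset Pool.Agent.ZOL

/-- The list of the crossings of the twist region of `tw N`. -/
theorem tw_list (N : ℕ) :
    ((List.range (2 * N)).map (fun n => n + 2)).Nodup ∧
    0 ∉ (List.range (2 * N)).map (fun n => n + 2) ∧
    1 ∉ (List.range (2 * N)).map (fun n => n + 2) ∧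
    Even ((List.range (2 * N)).map (fun n => n + 2)).length := by
  refine ⟨?_, ?_, ?_, ?_⟩
  · exact List.Nodup.map (fun a b h => by simpa using h) List.nodup_range
  · simp
  · simp
  · simp

theorem seg_mem (ov : ℕ → Bool) (l : List ℕ) : ∀ s : Bool, ∀ a ∈ l, a ∈ labels (seg ov s l) := by
  induction l with
  | nil => intro s a ha; simp at ha
  | cons b l ih =>
    intro s a ha
    rw [seg, labels_cons, Finset.mem_insert]
    rcases List.mem_cons.1 ha with h | h
    · exact Or.inl h
    · exact Or.inr (ih (!s) a h)

theorem tw_labels (N : ℕ) :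
    insert 0 ((range N).image (fun i => 2 * i + 2)) ⊆ labels (tw N) := by
  intro a ha
  rw [Finset.mem_insert, Finset.mem_image] at ha
  rw [tw, tg, labels_append, labels_append, labels_append]
  simp only [Finset.mem_union]
  left; left
  rcases ha with rfl | ⟨i, hi, rfl⟩
  · left; simp [labels]
  · right
    apply seg_mem
    rw [Finset.mem_range] at hi
    rw [List.mem_map]
    exact ⟨2 * i, by rw [List.mem_range]; omega, rfl⟩

/-- **FIM**. -/
theorem fim (hgg : TggStmt) (hpg : TpgStmt) (hsw : TswStmt) : FimStmt := by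
  intro M hM r j d hr x hx
  set N := r + j with hN
  obtain ⟨hn, h0, h1, he⟩ := tw_list N
  have hG : IsGauss (tw N) := hgg.1 _ _ hn h0 h1
  have hP : Planar (shadow (tw N)) := hpg.1 _ _ hn h0 h1 he
  set D : Finset ℕ := (range r).image (fun i => 2 * i + 2) with hD
  have hDc : D.card = r := by
    rw [hD, Finset.card_image_of_injective _ (fun a b h => by
      have h' : 2 * a + 2 = 2 * b + 2 := h
      omega), Finset.card_range]
  have h0D : 0 ∉ D := by
    rw [hD, Finset.mem_image]
    rintro ⟨i, -, hi⟩
    omega
  have hDN : D ⊆ (range N).image (fun i => 2 * i + 2) := by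
    rw [hD]
    apply Finset.image_subset_image
    intro a ha
    rw [Finset.mem_range] at ha ⊢
    omega
  let M' : Finset ℕ → ZK →+ ZK := fun S => if 0 ∈ S then AddMonoidHom.id ZK else M (N - S.card)
  have hfm : FMulStmt := H24.fmul H24.gflip H24.mgau H11.mpla
  have key := hfm (tw N) (insert 0 D) M' hG hP
    ((Finset.insert_subset_insert 0 hDN).trans (tw_labels N)) (by
      intro S hS w hw1 hw2
      rw [Finset.mem_powerset] at hS
      have hT := hsw w N S hw1 hw2
      by_cases h : 0 ∈ S
      · have e : M' S = AddMonoidHom.id ZK := by simp only [M', h, if_true]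
        rw [e, AddMonoidHom.id_apply]
        exact (hT.1 (hS.trans (Finset.insert_subset_insert 0 hDN)) h).symm
      · have e : M' S = M (N - S.card) := by simp only [M', h, if_false]
        rw [e, hM _ w hw1 hw2]
        refine (hT.2 ?_).symm
        intro a ha
        have := hS ha
        rw [Finset.mem_insert] at this
        rcases this with rfl | h'
        · exact absurd ha h
        · exact hDN h') d x hx
  rw [Finset.card_insert_of_notMem h0D, hDc, ← add_assoc, Finset.sum_powerset_insert h0D] at key
  have e1 : ∑ T ∈ D.powerset, (-1 : ℤ) ^ (insert 0 T).card • M' (insert 0 T) x = 0 := by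
    have e2 : ∀ T ∈ D.powerset, (-1 : ℤ) ^ (insert 0 T).card • M' (insert 0 T) x =
        -((-1 : ℤ) ^ T.card • x) := by
      intro T hT
      rw [Finset.mem_powerset] at hT
      have h0T : 0 ∉ T := fun h => h0D (hT h)
      have e : M' (insert 0 T) = AddMonoidHom.id ZK := by
        simp only [M', Finset.mem_insert_self, if_true]
      rw [e, AddMonoidHom.id_apply, Finset.card_insert_of_notMem h0T, pow_succ, mul_neg_one,
        neg_smul]
    rw [Finset.sum_congr rfl e2, Finset.sum_neg_distrib, ← Finset.sum_smul]
    have hne : D.Nonempty := by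
      rw [← Finset.card_pos, hDc]; omega
    rw [Finset.sum_powerset_neg_one_pow_card_of_nonempty hne, zero_smul, neg_zero]
  rw [e1, add_zero] at key
  have e3 : ∑ T ∈ D.powerset, (-1 : ℤ) ^ T.card • M' T x =
      ∑ T ∈ D.powerset, (fun t : ℕ => (-1 : ℤ) ^ t • M (N - t) x) T.card := by
    apply Finset.sum_congr rfl
    intro T hT
    rw [Finset.mem_powerset] at hT
    have h0T : 0 ∉ T := fun h => h0D (hT h)
    have e : M' T = M (N - T.card) := by simp only [M', h0T, if_false]
    rw [e]
  rw [e3, Finset.sum_powerset_apply_card (fun t : ℕ => (-1 : ℤ) ^ t • M (N - t) x), hDc] at key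
  have e4 : ∑ i ∈ range (r + 1), ((-1 : ℤ) ^ (r - i) * (r.choose i : ℤ)) • M (i + j) x =
      ∑ m ∈ range (r + 1), r.choose m • ((-1 : ℤ) ^ m • M (N - m) x) := by
    rw [← Finset.sum_flip]
    apply Finset.sum_congr rfl
    intro t ht
    rw [Finset.mem_range] at ht
    have a1 : r - (r - t) = t := by omega
    have a2 : r - t + j = N - t := by omega
    rw [a1, a2, Nat.choose_symm (by omega : t ≤ r), ← natCast_zsmul, smul_smul, mul_comm]
  rw [e4]
  exact key

end Pool.Agent.VTP.H15
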